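import Mathlib
import Pool.Agent.Lib.MP_583455_co.G1

set_option autoImplicit false

/-!
# The palindrome domino game with passing is winning for `B` for all large `n`
-/

namespace Pool.Agent.Results.MP_583455_co.FullYes

/-! ### The game -/

/-- A position on `ℤ` with colours `0, …, n`: `p i = none` means that the cell `i` is
uncoloured. -/
abbrev Pos (n : ℕ) := ℤ → Option (Fin (n + 1))

/-- A move: `none` is a pass, `some (i, a)` colours the cell `i` with the colour `a`. -/
abbrev Move (n : ℕ) := Option (ℤ × Fin (n + 1))

/-- A pass is always legal; colouring the cell `i` is legal when `i` is uncoloured. -/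
def Legal {n : ℕ} (p : Pos n) : Move n → Prop
  | none => True
  | some (i, _) => p i = none

/-- The position after a move. -/
def play {n : ℕ} (p : Pos n) : Move n → Pos n
  | none => p
  | some (i, a) => fun j => if j = i then some a else p j

/-- The position after the first `k` moves of the sequence of moves `f`; all cells are
uncoloured at the start. -/
def pos {n : ℕ} (f : ℕ → Move n) : ℕ → Pos n
  | 0 => fun _ => none
  | k + 1 => play (pos f k) (f k)

/-- The family of words `F_n`: the palindromes of length `2n+1` and the words `iii`. -/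
def Forb (n : ℕ) (w : List (Fin (n + 1))) : Prop :=
  (w.length = 2 * n + 1 ∧ w.reverse = w) ∨ ∃ i, w = [i, i, i]

/-- The word `w` appears in the position `p`: for some `j` the cells
`j, j+1, …` are coloured with the letters of `w`, in this order. -/
def Appears {n : ℕ} (p : Pos n) (w : List (Fin (n + 1))) : Prop :=
  ∃ j : ℤ, ∀ (k : ℕ) (hk : k < w.length), p (j + k) = some w[k]

/-- Some forbidden word appears: the game stops and `A` has won. -/
def Won {n : ℕ} (p : Pos n) : Prop := ∃ w, Forb n w ∧ Appears p w

/-- The list of the first `k` moves of `f`. -/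
def hist {n : ℕ} (f : ℕ → Move n) (k : ℕ) : List (Move n) := (List.range k).map f

/-- `A` makes the moves number `0, 2, 4, …`. `A` wins: there is a strategy `σ` (a function of
all previous moves) such that for every sequence of moves `f` in which `A` follows `σ` and the
moves of `B` are legal, after finitely many moves a forbidden word has appeared (and all moves up to
that moment were legal). -/
def AWins (n : ℕ) : Prop :=
  ∃ σ : List (Move n) → Move n, ∀ f : ℕ → Move n,
    (∀ k, f (2 * k) = σ (hist f (2 * k))) → (∀ k, Legal (pos f (2 * k + 1)) (f (2 * k + 1))) →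
    ∃ k, Won (pos f k) ∧ ∀ j < k, Legal (pos f j) (f j)

/-- `B` has a strategy `τ` such that in every sequence of moves in which `B` follows `τ` and the
moves of `A` are legal, all moves are legal and no forbidden word ever appears. -/
def BKeeps (n : ℕ) : Prop :=
  ∃ τ : List (Move n) → Move n, ∀ f : ℕ → Move n,
    (∀ k, f (2 * k + 1) = τ (hist f (2 * k + 1))) → (∀ k, Legal (pos f (2 * k)) (f (2 * k))) →
    ∀ k, Legal (pos f k) (f k) ∧ ¬ Won (pos f k)

/-! ### Translation to the boards of the library files -/

open MP583455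

/-- colour code: `0` for uncoloured, `a + 1` for the colour `a` -/
def code {n : ℕ} : Option (Fin (n + 1)) → ℕ
  | none => 0
  | some a => a.val + 1

lemma code_inj {n : ℕ} {x y : Option (Fin (n + 1))} (h : code x = code y) : x = y := by
  cases x with
  | none => cases y with
    | none => rfl
    | some b => simp [code] at h
  | some a => cases y with
    | none => simp [code] at h
    | some b =>
      simp only [code, Nat.add_right_cancel_iff] at h
      rw [Fin.ext h]

lemma code_zero {n : ℕ} {x : Option (Fin (n + 1))} : code x = 0 ↔ x = none := by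
  cases x <;> simp [code]

/-- the board `b` shows the position `p` -/
def Rel {n : ℕ} (b : Bd) (p : Pos n) : Prop := ∀ z, b.col z = code (p z)

lemma rel_put {n : ℕ} {b : Bd} {p : Pos n} (h : Rel b p) (i : ℤ) (a : Fin (n + 1)) (o : Bool) :
    Rel (b.put i (a.val + 1) o) (play p (some (i, a))) := by
  intro z
  rw [put_col]
  simp only [play]
  by_cases hz : z = i
  · simp [hz, code]
  · simp [hz, h z]

/-- good boards do not show a forbidden word -/
lemma not_won {n : ℕ} (hn : 10000000 ≤ n) {s : St} (hI : Inv s) {b' : Bd} {p : Pos n}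
    (hb' : b' = s.b ∨ ∃ y a, s.b.col y = 0 ∧ b' = s.b.put y a false)
    (ht : NoTri b') (hr : Rel b' p) : ¬ Won p := by
  rintro ⟨w, hw, j, hj⟩
  rcases hw with ⟨hlen, hrev⟩ | ⟨i, rfl⟩
  · apply no_pal hI hb' (j + n)
    intro z h1 h2
    obtain ⟨k, hk⟩ : ∃ k : ℕ, (k : ℤ) = z - j := ⟨(z - j).toNat, by omega⟩
    have hk1 : k < w.length := by omega
    have hk2 : 2 * n - k < w.length := by omega
    have e1 := hj k hk1
    have e2 := hj (2 * n - k) hk2
    have e3 : w[k] = w[2 * n - k] := by
      have h3 : w[k] = w.reverse[k]'(by rw [List.length_reverse]; exact hk1) := by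
        congr 1
        exact hrev.symm
      rw [h3, List.getElem_reverse]
      congr 1
      omega
    have z1 : j + (k : ℤ) = z := by omega
    have z2 : j + ((2 * n - k : ℕ) : ℤ) = 2 * (j + n) - z := by omega
    rw [z1] at e1
    rw [z2] at e2
    constructor
    · rw [hr z, e1]
      simp [code]
    · rw [hr z, hr (2 * (j + n) - z), e1, e2, e3]
  · have e0 := hj 0 (by simp)
    have e1 := hj 1 (by simp)
    have e2 := hj 2 (by simp)
    simp only [List.getElem_cons_zero, List.getElem_cons_succ, Nat.cast_zero, Nat.cast_one,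
      Nat.cast_ofNat, add_zero] at e0 e1 e2
    apply ht j
    · rw [hr j, e0]; simp [code]
    · rw [hr j, hr (j + 1), e0, e1]
    · rw [hr (j + 1), hr (j + 2), e1, e2]

/-! ### Bob's strategy -/

/-- `r` is a good reply of Bob to the move `m` in the state `s`, `s'` the next state -/
def OK {n : ℕ} (s : St) (m : Move n) (r : Move n) (s' : St) : Prop :=
  Inv s' ∧ (∀ z, s'.b.col z ≤ n + 1) ∧
  ∀ p : Pos n, Rel s.b p → Legal p m → ¬ Won (play p m) ∧ Legal (play p m) r ∧
    Rel s'.b (play (play p m) r)

lemma exists_ok {n : ℕ} (hn : 2 * 100000000 + 1 ≤ n) {s : St} (hI : Inv s)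
    (hb : ∀ z, s.b.col z ≤ n + 1) (m : Move n)
    (hm : ∀ y a, m = some (y, a) → s.b.col y = 0) :
    ∃ x : Move n × St, OK s m x.1 x.2 := by
  cases m with
  | none =>
    refine ⟨(none, s), hI, hb, fun p hp _ => ⟨?_, trivial, hp⟩⟩
    exact not_won (by omega) hI (Or.inl rfl) hI.notri hp
  | some ya =>
    obtain ⟨y, a⟩ := ya
    have hy := hm y a rfl
    obtain ⟨ht, s', hI', hb', hs'⟩ := step hn hI hb hy (a := a.val + 1) (by omega) (by omega)
    have hw : ∀ p : Pos n, Rel s.b p → ¬ Won (play p (some (y, a))) := fun p hp =>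
      not_won (by omega) hI (Or.inr ⟨y, a.val + 1, hy, rfl⟩) ht (rel_put hp y a false)
    rcases hs' with h1 | ⟨v, κ, h1, h2, h3, h4⟩
    · refine ⟨(none, s'), hI', hb', fun p hp _ => ⟨hw p hp, trivial, ?_⟩⟩
      show Rel s'.b (play p (some (y, a)))
      rw [h1]
      exact rel_put hp y a false
    · have hκ : κ - 1 < n + 1 := by omega
      refine ⟨(some (v, ⟨κ - 1, hκ⟩), s'), hI', hb', fun p hp _ => ⟨hw p hp, ?_, ?_⟩⟩
      · show play p (some (y, a)) v = none
        have := rel_put hp y a false v
        rw [h1] at this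
        exact code_zero.1 this.symm
      · have e1 := rel_put (rel_put hp y a false) v ⟨κ - 1, hκ⟩ true
        have e2 : (⟨κ - 1, hκ⟩ : Fin (n + 1)).val + 1 = κ := by
          simp only
          omega
        rw [e2, ← h4] at e1
        exact e1

open Classical in
/-- Bob's reply and the next state -/
noncomputable def next {n : ℕ} (s : St) (m : Move n) : Move n × St :=
  if h : ∃ x : Move n × St, OK s m x.1 x.2 then h.choose else (none, s)

/-- the state after `k` exchanges, `g i` being Alice's `i`-th move -/
noncomputable def stf {n : ℕ} (g : ℕ → Move n) : ℕ → St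
  | 0 => s0
  | k + 1 => (next (stf g k) (g k)).2

lemma stf_congr {n : ℕ} {g g' : ℕ → Move n} (k : ℕ) (h : ∀ i < k, g i = g' i) :
    stf g k = stf g' k := by
  induction k with
  | zero => rfl
  | succ k ih =>
    simp only [stf]
    rw [ih (fun i hi => h i (by omega)), h k (by omega)]

/-- Bob's strategy -/
noncomputable def strat {n : ℕ} (l : List (Move n)) : Move n :=
  (next (stf (fun i => l.getD (2 * i) none) ((l.length - 1) / 2)) (l.getD (l.length - 1) none)).1

lemma hist_length {n : ℕ} (f : ℕ → Move n) (k : ℕ) : (hist f k).length = k := by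
  simp [hist]

lemma hist_getD {n : ℕ} (f : ℕ → Move n) {k i : ℕ} (h : i < k) :
    (hist f k).getD i none = f i := by
  simp [hist, List.getD, h]

lemma strat_hist {n : ℕ} (f : ℕ → Move n) (k : ℕ) :
    strat (hist f (2 * k + 1)) = (next (stf (fun i => f (2 * i)) k) (f (2 * k))).1 := by
  unfold strat
  rw [hist_length]
  have h1 : (2 * k + 1 - 1) / 2 = k := by omega
  have h2 : 2 * k + 1 - 1 = 2 * k := by omega
  rw [h1, h2, hist_getD f (by omega)]
  congr 2
  apply stf_congr
  intro i hi
  exact hist_getD f (by omega)

theorem bKeeps {n : ℕ} (hn : 2 * 100000000 + 1 ≤ n) : BKeeps n := by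
  refine ⟨strat, fun f hB hA => ?_⟩
  -- the invariant
  have key : ∀ k, Inv (stf (fun i => f (2 * i)) k) ∧
      (∀ z, (stf (fun i => f (2 * i)) k).b.col z ≤ n + 1) ∧
      Rel (stf (fun i => f (2 * i)) k).b (pos f (2 * k)) ∧
      OK (stf (fun i => f (2 * i)) k) (f (2 * k)) (f (2 * k + 1))
        (stf (fun i => f (2 * i)) (k + 1)) := by
    have hstep : ∀ k, Inv (stf (fun i => f (2 * i)) k) →
        (∀ z, (stf (fun i => f (2 * i)) k).b.col z ≤ n + 1) →
        Rel (stf (fun i => f (2 * i)) k).b (pos f (2 * k)) →
        OK (stf (fun i => f (2 * i)) k) (f (2 * k)) (f (2 * k + 1))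
          (stf (fun i => f (2 * i)) (k + 1)) := by
      intro k h1 h2 h3
      have hex := exists_ok hn h1 h2 (f (2 * k)) (by
        intro y a hya
        have := hA k
        rw [hya] at this
        have h4 : pos f (2 * k) y = none := this
        rw [h3 y, h4]; rfl)
      have h5 : next (stf (fun i => f (2 * i)) k) (f (2 * k)) = hex.choose := by
        unfold next
        rw [dif_pos hex]
      rw [hB k, strat_hist]
      show OK _ _ _ (next (stf (fun i => f (2 * i)) k) (f (2 * k))).2
      rw [h5]
      exact hex.choose_spec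
    intro k
    induction k with
    | zero =>
      have h1 : Inv (stf (fun i => f (2 * i)) 0) := inv_init
      have h2 : ∀ z, (stf (fun i => f (2 * i)) 0).b.col z ≤ n + 1 := fun z => Nat.zero_le _
      have h3 : Rel (stf (fun i => f (2 * i)) 0).b (pos f (2 * 0)) := fun z => rfl
      exact ⟨h1, h2, h3, hstep 0 h1 h2 h3⟩
    | succ k ih =>
      obtain ⟨_, _, h3, hok⟩ := ih
      have h4 := hok.2.2 _ h3 (hA k)
      have h5 : Rel (stf (fun i => f (2 * i)) (k + 1)).b (pos f (2 * (k + 1))) := h4.2.2
      exact ⟨hok.1, hok.2.1, h5, hstep (k + 1) hok.1 hok.2.1 h5⟩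
  intro k
  obtain ⟨j, rfl | rfl⟩ : ∃ j, k = 2 * j ∨ k = 2 * j + 1 := ⟨k / 2, by omega⟩
  · obtain ⟨h1, _, h3, _⟩ := key j
    exact ⟨hA j, not_won (by omega) h1 (Or.inl rfl) h1.notri h3⟩
  · obtain ⟨h1, _, h3, hok⟩ := key j
    have h4 := hok.2.2 _ h3 (hA j)
    exact ⟨h4.2.1, h4.1⟩

/-! ### The two notions of winning exclude each other -/

/-- the history when both players follow their strategies -/
def dual {n : ℕ} (σ τ : List (Move n) → Move n) : ℕ → List (Move n)
  | 0 => []
  | k + 1 => dual σ τ k ++ [if k % 2 = 0 then σ (dual σ τ k) else τ (dual σ τ k)]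

/-- the sequence of moves when both players follow their strategies -/
def seqF {n : ℕ} (σ τ : List (Move n) → Move n) (k : ℕ) : Move n :=
  if k % 2 = 0 then σ (dual σ τ k) else τ (dual σ τ k)

lemma dual_length {n : ℕ} (σ τ : List (Move n) → Move n) (k : ℕ) : (dual σ τ k).length = k := by
  induction k with
  | zero => rfl
  | succ k ih => simp [dual, ih]

lemma hist_seqF {n : ℕ} (σ τ : List (Move n) → Move n) (k : ℕ) :
    hist (seqF σ τ) k = dual σ τ k := by
  induction k with
  | zero => rfl
  | succ k ih =>
    have : hist (seqF σ τ) (k + 1) = hist (seqF σ τ) k ++ [seqF σ τ k] := by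
      simp [hist, List.range_succ]
    rw [this, ih]
    rfl

lemma seqF_even {n : ℕ} (σ τ : List (Move n) → Move n) (k : ℕ) :
    seqF σ τ (2 * k) = σ (hist (seqF σ τ) (2 * k)) := by
  rw [hist_seqF]
  simp [seqF]

lemma seqF_odd {n : ℕ} (σ τ : List (Move n) → Move n) (k : ℕ) :
    seqF σ τ (2 * k + 1) = τ (hist (seqF σ τ) (2 * k + 1)) := by
  rw [hist_seqF]
  have : (2 * k + 1) % 2 = 1 := by omega
  simp [seqF, this]

lemma dual_congr {n : ℕ} {σ τ σ' τ' : List (Move n) → Move n} {K : ℕ}
    (h1 : ∀ l, l.length < K → σ l = σ' l) (h2 : ∀ l, l.length < K → τ l = τ' l) :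
    ∀ k ≤ K, dual σ τ k = dual σ' τ' k := by
  intro k
  induction k with
  | zero => intro _; rfl
  | succ k ih =>
    intro hk
    have e := ih (by omega)
    simp only [dual]
    rw [e, h1 _ (by rw [dual_length]; omega), h2 _ (by rw [dual_length]; omega)]

lemma pos_congr {n : ℕ} {f g : ℕ → Move n} (k : ℕ) (h : ∀ i < k, f i = g i) :
    pos f k = pos g k := by
  induction k with
  | zero => rfl
  | succ k ih =>
    simp only [pos]
    rw [ih (fun i hi => h i (by omega)), h k (by omega)]

lemma seqF_congr {n : ℕ} {σ τ σ' τ' : List (Move n) → Move n} {K : ℕ}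
    (h1 : ∀ l, l.length < K → σ l = σ' l) (h2 : ∀ l, l.length < K → τ l = τ' l) {k : ℕ}
    (hk : k < K) : seqF σ τ k = seqF σ' τ' k := by
  unfold seqF
  rw [dual_congr h1 h2 k hk.le, h1 _ (by rw [dual_length]; omega),
    h2 _ (by rw [dual_length]; omega)]

/-- If `B` can keep all forbidden words from appearing, then `A` has no winning strategy. -/
theorem not_aWins {n : ℕ} (h : BKeeps n) : ¬ AWins n := by
  rintro ⟨σ, hσ⟩
  obtain ⟨τ, hτ⟩ := h
  -- the strategies cut at time `K`
  have hcut : ∀ (K : ℕ) (ρ : List (Move n) → Move n), ∃ ρ' : List (Move n) → Move n,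
      (∀ l, l.length < K → ρ l = ρ' l) ∧ ∀ l, K ≤ l.length → ρ' l = none := by
    intro K ρ
    refine ⟨fun l => if l.length < K then ρ l else none, ?_, ?_⟩
    · intro l hl
      simp [hl]
    · intro l hl
      have : ¬ l.length < K := by omega
      simp [this]
  have hleg : ∀ K, ∀ k < K, Legal (pos (seqF σ τ) k) (seqF σ τ k) := by
    intro K
    induction K with
    | zero => intro k hk; omega
    | succ K ih =>
      intro k hk
      by_cases hkK : k < K
      · exact ih k hkK
      obtain rfl : k = K := by omega
      obtain ⟨σ', s1, s2⟩ := hcut k σ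
      obtain ⟨τ', t1, t2⟩ := hcut k τ
      -- `A` passes from time `k` on
      have eB : ∀ j < k, seqF σ τ j = seqF σ' τ j := fun j hj =>
        seqF_congr s1 (fun _ _ => rfl) hj
      have hB := hτ (seqF σ' τ) (seqF_odd σ' τ) (by
        intro j
        by_cases hj : 2 * j < k
        · rw [← eB _ hj, ← pos_congr (2 * j) (fun i hi => eB i (by omega))]
          exact ih _ hj
        · rw [seqF_even, s2 _ (by rw [hist_length]; omega)]
          trivial)
      rcases Nat.mod_two_eq_zero_or_one k with hk2 | hk2
      · by_contra hill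
        have eA : ∀ j < k, seqF σ τ j = seqF σ τ' j := fun j hj =>
          seqF_congr (fun _ _ => rfl) t1 hj
        obtain ⟨m, hm1, hm2⟩ := hσ (seqF σ τ') (seqF_even σ τ') (by
          intro j
          by_cases hj : 2 * j + 1 < k
          · rw [← eA _ hj, ← pos_congr (2 * j + 1) (fun i hi => eA i (by omega))]
            exact ih _ hj
          · rw [seqF_odd, t2 _ (by rw [hist_length]; omega)]
            trivial)
        by_cases hmk : k < m
        · apply hill
          have h1 := hm2 k hmk
          have h2 : seqF σ τ k = seqF σ τ' k := by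
            unfold seqF
            rw [if_pos hk2, if_pos hk2, dual_congr (fun _ _ => rfl) t1 k le_rfl]
          rw [h2, pos_congr k eA]
          exact h1
        · have h1 := (hB m).2
          apply h1
          rw [← pos_congr m (fun i hi => eB i (by omega)),
            pos_congr m (fun i hi => eA i (by omega))]
          exact hm1
      · have h1 := (hB k).1
        have h2 : seqF σ τ k = seqF σ' τ k := by
          unfold seqF
          have : ¬ k % 2 = 0 := by omega
          rw [if_neg this, if_neg this, dual_congr s1 (fun _ _ => rfl) k le_rfl]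
        rw [h2, pos_congr k eB]
        exact h1
  obtain ⟨m, hm1, _⟩ := hσ (seqF σ τ) (seqF_even σ τ) (fun k => hleg _ _ (Nat.lt_succ_self _))
  exact (hτ (seqF σ τ) (seqF_odd σ τ) (fun k => hleg _ _ (Nat.lt_succ_self _)) m).2 hm1

/-- **Positive answer to Q1 of MP_583455_co.** There is `N` such that for every `n ≥ N` the game
`Γ(A_n, F_n, ℤ)` (passing allowed) is winning for `B`: player `A` has no winning strategy, and player
`B` has a strategy that keeps every forbidden word from ever appearing. -/
theorem result : ∃ N : ℕ, ∀ n : ℕ, N ≤ n → ¬ AWins n ∧ BKeeps n := by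
  refine ⟨2 * 100000000 + 1, fun n hn => ?_⟩
  have h := bKeeps (n := n) (by omega)
  exact ⟨not_aWins h, h⟩

end Pool.Agent.Results.MP_583455_co.FullYes
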